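import Mathlib
import Pool.Agent.Run7.h757.GP.Stm
import Pool.Agent.N792.RX8a

/-!
# Piece GP-GPOS: the singular series of `n² + l²` and the divisors of `l`
-/

set_option autoImplicit false

namespace Run7.h328.GP

open Finset Filter Topology
open Pool.Agent.N782.GN (pp SS S_SSL)
open Pool.Agent.N792 (Vc V1 rho fv)

lemma one_le_prodR {ι : Type*} (s : Finset ι) (f : ι → ℝ) (h : ∀ i ∈ s, 1 ≤ f i) : 1 ≤ ∏ i ∈ s, f i := by
  calc (1 : ℝ) = ∏ i ∈ s, (1 : ℝ) := by simp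
    _ ≤ ∏ i ∈ s, f i := Finset.prod_le_prod (fun _ _ => zero_le_one) h

/-- the product of `1 + 1 / (p - 2)` over the odd primes `p ∣ l` -/
noncomputable def G (l : ℕ) : ℝ := ∏ p ∈ l.primeFactors.filter (fun p => 3 ≤ p), (1 + 1 / ((p : ℝ) - 2))

/-- the character modulo four as a real number -/
noncomputable def ch (p : ℕ) : ℝ := ((ZMod.χ₄ (p : ZMod 4) : ℤ) : ℝ)

lemma ch_abs (p : ℕ) : |ch p| ≤ 1 := by
  unfold ch
  have h : ∀ x : ZMod 4, |ZMod.χ₄ x| ≤ 1 := by decide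
  have := h (p : ZMod 4)
  rw [← Int.cast_abs]
  exact_mod_cast this

lemma fac_pos {p : ℕ} (hp : 3 ≤ p) : 0 < 1 - ch p / ((p : ℝ) - 1) := by
  have h3 : (3 : ℝ) ≤ p := by exact_mod_cast hp
  have h := abs_le.1 (ch_abs p)
  rw [sub_pos, div_lt_one (by linarith)]
  linarith

lemma fac_le {p : ℕ} (hp : 3 ≤ p) : 1 - ch p / ((p : ℝ) - 1) ≤ 1 + 1 / ((p : ℝ) - 2) := by
  have h3 : (3 : ℝ) ≤ p := by exact_mod_cast hp
  have h := abs_le.1 (ch_abs p)
  have h1 : -(1 / ((p : ℝ) - 2)) ≤ ch p / ((p : ℝ) - 1) := by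
    rw [← neg_div, div_le_div_iff₀ (by linarith) (by linarith)]
    nlinarith
  linarith

lemma fac_ge {p : ℕ} (hp : 3 ≤ p) : 1 ≤ (1 + 1 / ((p : ℝ) - 2)) * (1 - ch p / ((p : ℝ) - 1)) := by
  have h3 : (3 : ℝ) ≤ p := by exact_mod_cast hp
  have h := abs_le.1 (ch_abs p)
  have h1 : (1 + 1 / ((p : ℝ) - 2)) = ((p : ℝ) - 1) / ((p : ℝ) - 2) := by
    have : ((p : ℝ) - 2) ≠ 0 := by linarith
    field_simp
    ring
  have h2 : 1 - ch p / ((p : ℝ) - 1) = (((p : ℝ) - 1) - ch p) / ((p : ℝ) - 1) := by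
    have : ((p : ℝ) - 1) ≠ 0 := by linarith
    field_simp
  rw [h1, h2, div_mul_div_comm, le_div_iff₀ (mul_pos (by linarith) (by linarith))]
  nlinarith

/-- the odd primes up to `z` which divide `l` -/
def T (l z : ℕ) : Finset ℕ := (Icc 3 z).filter (fun p : ℕ => p.Prime ∧ (p : ℤ) ∣ (l : ℤ))

/-- the missing factors -/
noncomputable def Q (l z : ℕ) : ℝ := ∏ p ∈ T l z, (1 - ch p / ((p : ℝ) - 1))

lemma Q_pos (l z : ℕ) : 0 < Q l z := by
  unfold Q T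
  apply prod_pos
  intro p hp
  exact fac_pos (mem_Icc.1 (mem_filter.1 hp).1).1

lemma pp_pos (l z : ℕ) : 0 < pp (l : ℤ) z := by
  unfold pp
  apply prod_pos
  intro p hp
  exact fac_pos (mem_Icc.1 (mem_filter.1 hp).1).1

lemma pp_Q (l z : ℕ) : pp (1 : ℤ) z = pp (l : ℤ) z * Q l z := by
  have e1 : (Icc 3 z).filter (fun p : ℕ => p.Prime ∧ ¬ (p : ℤ) ∣ (1 : ℤ)) = (Icc 3 z).filter Nat.Prime := by
    apply filter_congr
    intro p hp
    refine ⟨fun h => h.1, fun h => ⟨h, ?_⟩⟩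
    intro h2
    have h5 : (p : ℤ).natAbs ∣ 1 := by
      have := Int.natAbs_dvd_natAbs.2 h2
      simpa using this
    rw [Int.natAbs_natCast] at h5
    have := Nat.le_of_dvd one_pos h5
    have := h.two_le
    omega
  unfold pp Q T
  rw [e1, ← prod_filter_mul_prod_filter_not ((Icc 3 z).filter Nat.Prime) (fun p : ℕ => ¬ (p : ℤ) ∣ (l : ℤ))]
  rw [filter_filter, filter_filter]
  simp only [not_not]
  rfl

lemma T_sub {l : ℕ} (hl : 1 ≤ l) (z : ℕ) : T l z ⊆ l.primeFactors.filter (fun p => 3 ≤ p) := by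
  intro p hp
  unfold T at hp
  rw [mem_filter, mem_Icc] at hp
  rw [mem_filter, Nat.mem_primeFactors]
  refine ⟨⟨hp.2.1, ?_, by omega⟩, hp.1.1⟩
  exact Int.natCast_dvd_natCast.1 hp.2.2

lemma prod_T_le {l : ℕ} (hl : 1 ≤ l) (z : ℕ) : ∏ p ∈ T l z, (1 + 1 / ((p : ℝ) - 2)) ≤ G l := by
  unfold G
  apply prod_le_prod_of_subset_of_one_le (T_sub hl z)
  · intro p hp
    unfold T at hp
    have h3 : (3 : ℝ) ≤ p := by exact_mod_cast (mem_Icc.1 (mem_filter.1 hp).1).1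
    have : (0 : ℝ) < 1 / ((p : ℝ) - 2) := by
      apply div_pos one_pos; linarith
    linarith
  · intro p hp _
    have h3 : (3 : ℝ) ≤ p := by exact_mod_cast (mem_filter.1 hp).2
    have : (0 : ℝ) < 1 / ((p : ℝ) - 2) := by
      apply div_pos one_pos; linarith
    linarith

lemma one_le_G (l : ℕ) : 1 ≤ G l := by
  unfold G
  apply one_le_prodR
  intro p hp
  have h3 : (3 : ℝ) ≤ p := by exact_mod_cast (mem_filter.1 hp).2
  have : (0 : ℝ) < 1 / ((p : ℝ) - 2) := by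
    apply div_pos one_pos; linarith
  linarith

lemma Q_le {l : ℕ} (hl : 1 ≤ l) (z : ℕ) : Q l z ≤ G l := by
  refine le_trans ?_ (prod_T_le hl z)
  unfold Q
  apply Finset.prod_le_prod
  · intro p hp
    exact (fac_pos (mem_Icc.1 (mem_filter.1 hp).1).1).le
  · intro p hp
    exact fac_le (mem_Icc.1 (mem_filter.1 hp).1).1

lemma Q_ge {l : ℕ} (hl : 1 ≤ l) (z : ℕ) : 1 ≤ G l * Q l z := by
  have h1 : 1 ≤ (∏ p ∈ T l z, (1 + 1 / ((p : ℝ) - 2))) * Q l z := by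
    unfold Q
    rw [← prod_mul_distrib]
    apply one_le_prodR
    intro p hp
    exact fac_ge (mem_Icc.1 (mem_filter.1 hp).1).1
  exact h1.trans (mul_le_mul_of_nonneg_right (prod_T_le hl z) (Q_pos l z).le)

lemma pp_le {l : ℕ} (hl : 1 ≤ l) (z : ℕ) : pp (l : ℤ) z ≤ pp (1 : ℤ) z * G l := by
  rw [pp_Q l z]
  have h1 := Q_ge hl z
  have h2 := pp_pos l z
  nlinarith

lemma pp_ge {l : ℕ} (hl : 1 ≤ l) (z : ℕ) : pp (1 : ℤ) z / G l ≤ pp (l : ℤ) z := by
  rw [div_le_iff₀ (by linarith [one_le_G l]), pp_Q l z]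
  exact mul_le_mul_of_nonneg_left (Q_le hl z) (pp_pos l z).le

lemma SS_ge (hs : S_SSL) {l : ℕ} (hl : 1 ≤ l) : SS 1 / G l ≤ SS (l : ℤ) := by
  have h1 := (hs 1 (by norm_num)).1
  have h2 := (hs (l : ℤ) (by omega)).1
  exact le_of_tendsto_of_tendsto' (h1.div_const _) h2 (fun z => pp_ge hl z)

lemma pp_bdd (hs : S_SSL) : ∃ C : ℝ, 1 ≤ C ∧ ∀ z : ℕ, pp (1 : ℤ) z ≤ C := by
  have h1 := (hs 1 (by norm_num)).1
  obtain ⟨C, hC⟩ := h1.bddAbove_range
  refine ⟨max 1 C, le_max_left _ _, fun z => ?_⟩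
  exact (hC ⟨z, rfl⟩).trans (le_max_right _ _)

/-! ### the densities -/

lemma rho_odd {l p : ℕ} (hp : p.Prime) (h3 : 3 ≤ p) :
    (rho 1 0 ((l ^ 2 : ℕ) : ℤ) p : ℝ) = if (p : ℤ) ∣ (l : ℤ) then 1 else 1 + ch p := by
  have h2 : ¬ (p : ℤ) ∣ 2 * 1 := by
    rw [mul_one]
    intro h
    have h5 : (p : ℤ).natAbs ∣ 2 := by
      have := Int.natAbs_dvd_natAbs.2 h
      simpa using this
    rw [Int.natAbs_natCast] at h5
    have := Nat.le_of_dvd (by norm_num) h5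
    omega
  have h := Pool.Agent.N792.RX8a.rho_eq 1 0 ((l ^ 2 : ℕ) : ℤ) p hp h2
  have hodd : Odd p := hp.odd_of_ne_two (by omega)
  have e1 : ((0 : ℤ) ^ 2 - 4 * 1 * ((l ^ 2 : ℕ) : ℤ)) = (-1) * (2 * (l : ℤ)) ^ 2 := by
    push_cast
    ring
  rw [e1, jacobiSym.mul_left, jacobiSym.at_neg_one hodd] at h
  have h' : (rho 1 0 ((l ^ 2 : ℕ) : ℤ) p : ℝ) = 1 + ch p * (jacobiSym ((2 * (l : ℤ)) ^ 2) p : ℝ) := by
    unfold ch
    exact_mod_cast h
  rw [h']
  split_ifs with hd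
  · have : jacobiSym ((2 * (l : ℤ)) ^ 2) p = 0 := by
      have : NeZero p := ⟨hp.ne_zero⟩
      rw [jacobiSym.eq_zero_iff_not_coprime]
      intro hg
      have h4 : (p : ℤ) ∣ ((2 * (l : ℤ)) ^ 2).gcd p := by
        apply Int.dvd_coe_gcd
        · exact Dvd.dvd.trans (Dvd.dvd.mul_left hd 2) (dvd_pow_self _ (by norm_num))
        · exact dvd_rfl
      rw [hg] at h4
      have h5 : (p : ℤ) ≤ 1 := Int.le_of_dvd (by norm_num) (by exact_mod_cast h4)
      omega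
    rw [this]
    simp
  · have : jacobiSym ((2 * (l : ℤ)) ^ 2) p = 1 := by
      apply jacobiSym.sq_one'
      rw [Int.gcd_comm, ← Int.isCoprime_iff_gcd_eq_one]
      have hpp : Prime (p : ℤ) := Nat.prime_iff_prime_int.1 hp
      rw [Prime.coprime_iff_not_dvd hpp]
      intro h6
      rcases hpp.dvd_or_dvd h6 with h7 | h7
      · exact h2 (by rw [mul_one]; exact h7)
      · exact hd h7
    rw [this]
    simp

lemma rho_two (l : ℕ) : rho 1 0 ((l ^ 2 : ℕ) : ℤ) 2 = 1 := by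
  unfold rho fv
  rcases Nat.even_or_odd' l with ⟨k, rfl | rfl⟩
  · have : (range 2).filter (fun r : ℕ => ((2 : ℕ) : ℤ) ∣ 1 * (r : ℤ) ^ 2 + 0 * (r : ℤ) + (((2 * k) ^ 2 : ℕ) : ℤ)) = {0} := by
      ext r
      simp only [mem_filter, mem_range, mem_singleton]
      constructor
      · rintro ⟨h1, h2⟩
        interval_cases r
        · rfl
        · exfalso
          obtain ⟨m, hm⟩ := h2
          push_cast at hm
          have h3 : (1 : ℤ) = 2 * (m - 2 * (k : ℤ) ^ 2) := by linarith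
          generalize (m - 2 * (k : ℤ) ^ 2) = q at h3
          omega
      · rintro rfl
        refine ⟨by norm_num, ?_⟩
        push_cast
        exact ⟨2 * (k : ℤ) ^ 2, by ring⟩
    rw [this, card_singleton]
  · have : (range 2).filter (fun r : ℕ => ((2 : ℕ) : ℤ) ∣ 1 * (r : ℤ) ^ 2 + 0 * (r : ℤ) + (((2 * k + 1) ^ 2 : ℕ) : ℤ)) = {1} := by
      ext r
      simp only [mem_filter, mem_range, mem_singleton]
      constructor
      · rintro ⟨h1, h2⟩
        interval_cases r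
        · exfalso
          obtain ⟨m, hm⟩ := h2
          push_cast at hm
          have h3 : (1 : ℤ) = 2 * (m - 2 * (k : ℤ) ^ 2 - 2 * k) := by linarith
          generalize (m - 2 * (k : ℤ) ^ 2 - 2 * k) = q at h3
          omega
        · rfl
      · rintro rfl
        refine ⟨by norm_num, ?_⟩
        push_cast
        exact ⟨2 * (k : ℤ) ^ 2 + 2 * k + 1, by ring⟩
    rw [this, card_singleton]

lemma Vc_eq (l z : ℕ) (hz : 2 ≤ z) : Vc 1 0 ((l ^ 2 : ℕ) : ℤ) z = V1 z * pp (l : ℤ) z := by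
  unfold Vc V1 pp
  have e1 : (Icc 1 z).filter Nat.Prime = insert 2 ((Icc 3 z).filter Nat.Prime) := by
    ext p
    simp only [mem_filter, mem_Icc, mem_insert]
    constructor
    · rintro ⟨⟨h1, h2⟩, h3⟩
      have := h3.two_le
      by_cases h : p = 2
      · exact Or.inl h
      · exact Or.inr ⟨⟨by omega, h2⟩, h3⟩
    · rintro (rfl | ⟨⟨h1, h2⟩, h3⟩)
      · exact ⟨⟨by norm_num, hz⟩, Nat.prime_two⟩
      · exact ⟨⟨by omega, h2⟩, h3⟩
  have hn : 2 ∉ (Icc 3 z).filter Nat.Prime := by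
    simp
  rw [e1, prod_insert hn, prod_insert hn, rho_two]
  have e2 : ∏ p ∈ (Icc 3 z).filter (fun p : ℕ => p.Prime ∧ ¬ (p : ℤ) ∣ (l : ℤ)),
      (1 - ((ZMod.χ₄ (p : ZMod 4) : ℤ) : ℝ) / ((p : ℝ) - 1)) =
      ∏ p ∈ (Icc 3 z).filter Nat.Prime, (if (p : ℤ) ∣ (l : ℤ) then 1 else 1 - ch p / ((p : ℝ) - 1)) := by
    rw [← filter_filter, prod_filter]
    apply prod_congr rfl
    intro p _
    by_cases h : (p : ℤ) ∣ (l : ℤ)
    · simp [h]
    · simp [h, ch]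
  have e3 : ∏ p ∈ (Icc 3 z).filter Nat.Prime, (1 - (rho 1 0 ((l ^ 2 : ℕ) : ℤ) p : ℝ) / p) =
      ∏ p ∈ (Icc 3 z).filter Nat.Prime, ((1 - 1 / (p : ℝ)) * (if (p : ℤ) ∣ (l : ℤ) then 1 else 1 - ch p / ((p : ℝ) - 1))) := by
    apply prod_congr rfl
    intro p hp
    rw [mem_filter, mem_Icc] at hp
    have h3 : (3 : ℝ) ≤ p := by exact_mod_cast hp.1.1
    rw [rho_odd hp.2 hp.1.1]
    split_ifs with h
    · rw [mul_one]
    · have h1 : (p : ℝ) ≠ 0 := by linarith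
      have h2 : (p : ℝ) - 1 ≠ 0 := by linarith
      field_simp
      ring
  rw [e2, e3, mul_assoc, ← prod_mul_distrib]
  norm_num

end Run7.h328.GP
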