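import Mathlib
import Pool.Agent.Run7.h328.GP.A
import Pool.Agent.N792.Rav

/-!
# Piece GP-GPOS: the mean square of `G` and the upper bound sieve
-/

set_option autoImplicit false

namespace Run7.h328.GP

open Finset Filter Topology
open Pool.Agent.N782.GN (pp SS S_SSL)
open Pool.Agent.N792 (Vc V1 rho fv)

lemma loc_le {p : ℕ} (hp : 3 ≤ p) :
    (1 + 1 / ((p : ℝ) - 2)) ^ 2 ≤ (if p < 11 then 4 else 1) * (1 + 1 / √(p : ℝ)) := by
  have h3 : (3 : ℝ) ≤ p := by exact_mod_cast hp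
  have hs : 0 < √(p : ℝ) := Real.sqrt_pos.2 (by linarith)
  have hs2 : √(p : ℝ) ^ 2 = p := Real.sq_sqrt (by linarith)
  have hr : 0 < 1 / √(p : ℝ) := by positivity
  split_ifs with h
  · have h1 : 1 / ((p : ℝ) - 2) ≤ 1 := by
      rw [div_le_one (by linarith)]
      linarith
    have h0 : 0 < 1 / ((p : ℝ) - 2) := div_pos one_pos (by linarith)
    nlinarith
  · have h11 : (11 : ℝ) ≤ p := by exact_mod_cast (not_lt.1 h)
    have hd : 0 < (p : ℝ) - 2 := by linarith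
    rw [one_mul]
    have e1 : (1 + 1 / ((p : ℝ) - 2)) ^ 2 = 1 + (2 * ((p : ℝ) - 2) + 1) / ((p : ℝ) - 2) ^ 2 := by
      field_simp
      ring
    rw [e1]
    have hs3 : 3 ≤ √(p : ℝ) := by
      rw [show (3 : ℝ) = √9 by rw [show (9 : ℝ) = 3 ^ 2 by norm_num]; exact (Real.sqrt_sq (by norm_num)).symm]
      exact Real.sqrt_le_sqrt (by linarith)
    have h2 : (2 * ((p : ℝ) - 2) + 1) / ((p : ℝ) - 2) ^ 2 ≤ 1 / √(p : ℝ) := by
      rw [div_le_div_iff₀ (by positivity) hs]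
      obtain ⟨s, hsd⟩ : ∃ s, s = √(p : ℝ) := ⟨_, rfl⟩
      rw [← hsd] at hs2 hs3 ⊢
      rw [← hs2] at h11 ⊢
      have h33 : (331 : ℝ) / 100 ≤ s := by nlinarith
      nlinarith [mul_nonneg (sub_nonneg.2 h33) (sq_nonneg s), mul_nonneg (sub_nonneg.2 h33) (sub_nonneg.2 hs3),
        mul_nonneg (mul_nonneg (sub_nonneg.2 h33) (sub_nonneg.2 hs3)) (sq_nonneg s)]
    linarith

lemma prod_le_div {l : ℕ} (hl : 1 ≤ l) :
    ∏ p ∈ l.primeFactors, (1 + 1 / √(p : ℝ)) ≤ ∑ d ∈ l.divisors, 1 / √(d : ℝ) := by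
  rw [prod_one_add]
  have e1 : ∀ t ∈ l.primeFactors.powerset, ∏ p ∈ t, 1 / √(p : ℝ) = 1 / √(((∏ p ∈ t, p : ℕ) : ℝ)) := by
    intro t _
    rw [prod_div_distrib, prod_const_one]
    congr 1
    push_cast
    rw [Real.sqrt_prod]
    intro i _
    positivity
  rw [sum_congr rfl e1]
  have hinj : Set.InjOn (fun t : Finset ℕ => ∏ p ∈ t, p) (l.primeFactors.powerset : Set (Finset ℕ)) := by
    intro s hs t ht hst
    have hs' : ∀ p ∈ s, p.Prime := fun p hp =>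
      (Nat.mem_primeFactors.1 (mem_powerset.1 (mem_coe.1 hs) hp)).1
    have ht' : ∀ p ∈ t, p.Prime := fun p hp =>
      (Nat.mem_primeFactors.1 (mem_powerset.1 (mem_coe.1 ht) hp)).1
    have h1 := Nat.primeFactors_prod hs'
    have h2 := Nat.primeFactors_prod ht'
    simp only at hst
    rw [← h1, ← h2, hst]
  rw [← sum_image (f := fun d : ℕ => 1 / √(d : ℝ)) hinj]
  apply sum_le_sum_of_subset_of_nonneg
  · intro d hd
    rw [mem_image] at hd
    obtain ⟨t, ht, rfl⟩ := hd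
    rw [Nat.mem_divisors]
    refine ⟨?_, by omega⟩
    exact (prod_dvd_prod_of_subset _ _ _ (mem_powerset.1 ht)).trans (Nat.prod_primeFactors_dvd l)
  · intro d _ _
    positivity

lemma G_sq_le {l : ℕ} (hl : 1 ≤ l) : G l ^ 2 ≤ 64 * ∑ d ∈ l.divisors, 1 / √(d : ℝ) := by
  have h1 : G l ^ 2 ≤ ∏ p ∈ l.primeFactors.filter (fun p => 3 ≤ p),
      ((if p < 11 then 4 else 1) * (1 + 1 / √(p : ℝ))) := by
    unfold G
    rw [← prod_pow]
    apply Finset.prod_le_prod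
    · intro p _
      positivity
    · intro p hp
      exact loc_le (mem_filter.1 hp).2
  have h2 : ∏ p ∈ l.primeFactors.filter (fun p => 3 ≤ p), (if p < 11 then (4 : ℝ) else 1) ≤ 64 := by
    rw [← prod_filter, prod_const]
    have h3 : #((l.primeFactors.filter (fun p => 3 ≤ p)).filter (fun p => p < 11)) ≤ #({3, 5, 7} : Finset ℕ) := by
      apply card_le_card
      intro p hp
      rw [mem_filter, mem_filter, Nat.mem_primeFactors] at hp
      obtain ⟨⟨⟨hp, -⟩, h3⟩, h11⟩ := hp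
      simp only [mem_insert, mem_singleton]
      interval_cases p <;> first | omega | (exfalso; revert hp; norm_num)
    calc (4 : ℝ) ^ #((l.primeFactors.filter (fun p => 3 ≤ p)).filter (fun p => p < 11)) ≤ 4 ^ 3 :=
          pow_le_pow_right₀ (by norm_num) h3
      _ = 64 := by norm_num
  have h4 : ∏ p ∈ l.primeFactors.filter (fun p => 3 ≤ p), (1 + 1 / √(p : ℝ)) ≤
      ∏ p ∈ l.primeFactors, (1 + 1 / √(p : ℝ)) := by
    apply prod_le_prod_of_subset_of_one_le (filter_subset _ _)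
    · intro p _
      positivity
    · intro p _ _
      have : 0 ≤ 1 / √(p : ℝ) := by positivity
      linarith
  rw [prod_mul_distrib] at h1
  refine h1.trans ?_
  have h5 : 0 ≤ ∏ p ∈ l.primeFactors.filter (fun p => 3 ≤ p), (1 + 1 / √(p : ℝ)) := by
    apply prod_nonneg
    intro p _
    positivity
  calc _ ≤ 64 * ∏ p ∈ l.primeFactors.filter (fun p => 3 ≤ p), (1 + 1 / √(p : ℝ)) :=
        mul_le_mul_of_nonneg_right h2 h5
    _ ≤ 64 * ∑ d ∈ l.divisors, 1 / √(d : ℝ) := by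
        apply mul_le_mul_of_nonneg_left _ (by norm_num)
        exact h4.trans (prod_le_div hl)

lemma sum_div_le (L : ℕ) (f : ℕ → ℝ) (hf : ∀ d, 0 ≤ f d) :
    ∑ l ∈ Icc 1 L, ∑ d ∈ l.divisors, f d ≤ ∑ d ∈ Icc 1 L, f d * (L / d) := by
  have e1 : ∀ l ∈ Icc 1 L, ∑ d ∈ l.divisors, f d = ∑ d ∈ Icc 1 L, if d ∣ l then f d else 0 := by
    intro l hl
    rw [mem_Icc] at hl
    rw [← sum_filter]
    apply sum_congr _ fun _ _ => rfl
    ext d
    rw [Nat.mem_divisors, mem_filter, mem_Icc]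
    constructor
    · rintro ⟨h1, h2⟩
      have := Nat.le_of_dvd (by omega) h1
      have := Nat.pos_of_dvd_of_pos h1 (by omega)
      exact ⟨⟨by omega, by omega⟩, h1⟩
    · rintro ⟨h1, h2⟩
      exact ⟨h2, by omega⟩
  rw [sum_congr rfl e1, sum_comm]
  apply sum_le_sum
  intro d hd
  rw [mem_Icc] at hd
  rw [← sum_filter, sum_const, nsmul_eq_mul, mul_comm]
  apply mul_le_mul_of_nonneg_left _ (hf d)
  have h := Nat.Ioc_filter_dvd_card_eq_div L d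
  have e2 : Icc 1 L = Ioc 0 L := by ext x; simp only [mem_Icc, mem_Ioc]; omega
  rw [e2, h]
  exact Nat.cast_div_le

/-- the mean square of `G` -/
theorem sum_G_sq : ∃ C : ℝ, 1 ≤ C ∧ ∀ L : ℕ, ∑ l ∈ Icc 1 L, G l ^ 2 ≤ C * L := by
  have hsum : Summable (fun d : ℕ => 1 / (d : ℝ) ^ (3 / 2 : ℝ)) := Real.summable_one_div_nat_rpow.2 (by norm_num)
  obtain ⟨S, hS⟩ : ∃ S, S = ∑' d : ℕ, 1 / (d : ℝ) ^ (3 / 2 : ℝ) := ⟨_, rfl⟩
  have hS0 : 0 ≤ S := by
    rw [hS]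
    exact tsum_nonneg fun d => by positivity
  refine ⟨64 * S + 1, by linarith, fun L => ?_⟩
  have h1 : ∑ l ∈ Icc 1 L, G l ^ 2 ≤ 64 * ∑ l ∈ Icc 1 L, ∑ d ∈ l.divisors, 1 / √(d : ℝ) := by
    rw [mul_sum]
    exact sum_le_sum fun l hl => G_sq_le (mem_Icc.1 hl).1
  have h2 := sum_div_le L (fun d => 1 / √(d : ℝ)) (fun d => by positivity)
  have h3 : ∑ d ∈ Icc 1 L, 1 / √(d : ℝ) * (L / d) ≤ L * S := by
    have e1 : ∀ d ∈ Icc 1 L, 1 / √(d : ℝ) * ((L : ℝ) / d) = L * (1 / (d : ℝ) ^ (3 / 2 : ℝ)) := by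
      intro d hd
      have hd1 : (0 : ℝ) < d := by exact_mod_cast (mem_Icc.1 hd).1
      have : (d : ℝ) ^ (3 / 2 : ℝ) = √(d : ℝ) * d := by
        rw [show (3 / 2 : ℝ) = 1 / 2 + 1 by norm_num, Real.rpow_add hd1, Real.rpow_one, Real.sqrt_eq_rpow]
      rw [this]
      have := Real.sqrt_pos.2 hd1
      field_simp
    rw [sum_congr rfl e1, ← mul_sum]
    apply mul_le_mul_of_nonneg_left _ (Nat.cast_nonneg _)
    rw [hS]
    exact hsum.sum_le_tsum _ fun d _ => by positivity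
  have hL : (0 : ℝ) ≤ L := Nat.cast_nonneg _
  nlinarith

/-- the first moment of `G` -/
theorem sum_G_le {C : ℝ} (hC : 1 ≤ C) {L : ℕ} (h : ∑ l ∈ Icc 1 L, G l ^ 2 ≤ C * L) : ∑ l ∈ Icc 1 L, G l ≤ C * L := by
  refine le_trans (sum_le_sum fun l _ => ?_) h
  have := one_le_G l
  nlinarith

/-- a lower bound for the mean of the singular series -/
theorem sum_SS_ge (hs : S_SSL) {C : ℝ} (hC : 1 ≤ C) {L : ℕ} (hL : 1 ≤ L) (h : ∑ l ∈ Icc 1 L, G l ^ 2 ≤ C * L) :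
    SS 1 / C * L ≤ ∑ l ∈ Icc 1 L, SS (l : ℤ) := by
  have hS1 : 0 < SS 1 := (hs 1 (by norm_num)).2
  have h1 : ∑ l ∈ Icc 1 L, SS 1 / G l ≤ ∑ l ∈ Icc 1 L, SS (l : ℤ) :=
    sum_le_sum fun l hl => SS_ge hs (mem_Icc.1 hl).1
  refine le_trans ?_ h1
  have hLr : (1 : ℝ) ≤ L := by exact_mod_cast hL
  -- tangent line: `1 / x ≥ (2 C - x) / C ^ 2`
  have h2 : ∀ l ∈ Icc 1 L, SS 1 * ((2 * C - G l) / C ^ 2) ≤ SS 1 / G l := by
    intro l _
    have hg := one_le_G l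
    rw [div_eq_mul_one_div (SS 1)]
    apply mul_le_mul_of_nonneg_left _ hS1.le
    rw [div_le_div_iff₀ (by positivity) (by linarith)]
    nlinarith [sq_nonneg (C - G l)]
  refine le_trans ?_ (sum_le_sum h2)
  have h3 := sum_G_le hC h
  have e : ∑ l ∈ Icc 1 L, SS 1 * ((2 * C - G l) / C ^ 2) = SS 1 / C ^ 2 * (2 * C * L - ∑ l ∈ Icc 1 L, G l) := by
    rw [← mul_sum, ← sum_div, sum_sub_distrib, sum_const, Nat.card_Icc, nsmul_eq_mul, Nat.add_sub_cancel]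
    ring
  rw [e]
  have h4 : SS 1 / C * L = SS 1 / C ^ 2 * (C * L) := by
    field_simp
  rw [h4]
  apply mul_le_mul_of_nonneg_left _ (by positivity)
  linarith

/-- the upper bound sieve -/
theorem up_G (hs : S_SSL) (hu : Run7.h757.BP.S_UP) : ∃ C : ℝ, 1 ≤ C ∧ ∃ N₀ : ℕ, ∀ N : ℕ, N₀ ≤ N → ∀ l : ℕ, 1 ≤ l →
    (Run7.h757.BP.P ((l : ℤ) ^ 2) N : ℝ) ≤ C * (N / Real.log N) * G l + C * (N : ℝ) ^ (3 / 4 : ℝ) := by
  obtain ⟨C1, hC1, κ, hκ, -, N1, h1⟩ := hu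
  obtain ⟨C2, hC2, h2⟩ := pp_bdd hs
  have hC12 : 1 ≤ C1 * C2 / κ + C1 := by
    have : 0 ≤ C1 * C2 / κ := by positivity
    linarith
  refine ⟨C1 * C2 / κ + C1, hC12, max N1 3, fun N hN l hl => ?_⟩
  obtain ⟨J, hJ1, -, hJ3⟩ := h1 N (le_trans (le_max_left _ _) hN)
  have hN3 : 3 ≤ N := le_trans (le_max_right _ _) hN
  have hNr : (3 : ℝ) ≤ N := by exact_mod_cast hN3
  have hlog : 0 < Real.log N := Real.log_pos (by linarith)
  obtain ⟨z, hz⟩ : ∃ z : ℕ, z = 2 ^ 2 ^ J := ⟨_, rfl⟩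
  rw [← hz] at hJ1
  have hz2 : 2 ≤ z := by
    rw [hz]
    calc 2 = 2 ^ 1 := by norm_num
      _ ≤ 2 ^ 2 ^ J := Nat.pow_le_pow_right (by norm_num) Nat.one_le_two_pow
  have h3 := hJ3 (l ^ 2)
  rw [← hz, Vc_eq l z hz2] at h3
  have e : ((l ^ 2 : ℕ) : ℤ) = (l : ℤ) ^ 2 := by push_cast; rfl
  rw [e] at h3
  refine h3.trans ?_
  have hV := Pool.Agent.N792.V1_le z hz2
  have hV0 := Pool.Agent.N792.V1_pos z
  have hlz : κ * Real.log N ≤ Real.log z := by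
    rw [← Real.log_rpow (by linarith)]
    exact Real.log_le_log (by positivity) hJ1
  have hV2 : V1 z ≤ 1 / (κ * Real.log N) := hV.trans (one_div_le_one_div_of_le (by positivity) hlz)
  have hp := (pp_le hl z).trans (mul_le_mul_of_nonneg_right (h2 z) (by linarith [one_le_G l]))
  have hp0 := pp_pos l z
  have hG := one_le_G l
  have h5 : V1 z * pp (l : ℤ) z ≤ 1 / (κ * Real.log N) * (C2 * G l) := by
    apply mul_le_mul hV2 hp hp0.le (by positivity)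
  have h6 : C1 * N * (V1 z * pp (l : ℤ) z) ≤ C1 * C2 / κ * (N / Real.log N) * G l := by
    calc C1 * N * (V1 z * pp (l : ℤ) z) ≤ C1 * N * (1 / (κ * Real.log N) * (C2 * G l)) := by
          apply mul_le_mul_of_nonneg_left h5 (by positivity)
      _ = _ := by field_simp
  have h7 : 0 ≤ C1 * (N / Real.log N) * G l := by positivity
  have h8 : 0 ≤ C1 * C2 / κ * (N : ℝ) ^ (3 / 4 : ℝ) := by positivity
  have e2 : (C1 * C2 / κ + C1) * (N / Real.log N) * G l = C1 * C2 / κ * (N / Real.log N) * G l +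
      C1 * (N / Real.log N) * G l := by ring
  have e3 : (C1 * C2 / κ + C1) * (N : ℝ) ^ (3 / 4 : ℝ) = C1 * C2 / κ * (N : ℝ) ^ (3 / 4 : ℝ) +
      C1 * (N : ℝ) ^ (3 / 4 : ℝ) := by ring
  rw [e2, e3]
  linarith

end Run7.h328.GP
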