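import Mathlib
import Pool.Agent.Run7.h328.GP.B
import Pool.Agent.N782.GN.FinE

/-!
# Piece GP-GPOS: the first moment of the number of primes
-/

set_option autoImplicit false

namespace Run7.h328.GP

open Finset Filter Topology
open Pool.Agent.N782.GN (pp SS S_SSL TT TH TT_TH sum_int_nat)
open Run7.h757.BP (P)

lemma rpow_ge_log (κ : ℝ) (hκ : 0 < κ) (E : ℕ) (c : ℝ) (hc : 0 < c) : ∀ᶠ N : ℕ in atTop, c * Real.log N ^ E ≤ (N : ℝ) ^ κ := by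
  have h := isLittleO_log_rpow_atTop (show 0 < κ / (E + 1) by positivity)
  have h2 : ∀ᶠ x : ℝ in atTop, Real.log x ≤ x ^ (κ / (E + 1)) := by
    filter_upwards [h.bound one_pos, eventually_ge_atTop 1] with x hx hx1
    rw [one_mul, Real.norm_of_nonneg (Real.log_nonneg hx1), Real.norm_of_nonneg (by positivity)] at hx
    exact hx
  have h3 : ∀ᶠ x : ℝ in atTop, c ≤ x ^ (κ / (E + 1)) := (tendsto_rpow_atTop (by positivity)).eventually_ge_atTop c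
  have h4 := (h2.and (h3.and (eventually_ge_atTop (1 : ℝ))))
  filter_upwards [tendsto_natCast_atTop_atTop.eventually h4] with N hN
  obtain ⟨g1, g2, g3⟩ := hN
  have e1 : (N : ℝ) ^ κ = (N : ℝ) ^ (κ / (E + 1)) * ((N : ℝ) ^ (κ / (E + 1))) ^ E := by
    rw [← pow_succ', ← Real.rpow_natCast, ← Real.rpow_mul (by linarith)]
    congr 1
    push_cast
    field_simp
  rw [e1]
  exact mul_le_mul g2 (pow_le_pow_left₀ (Real.log_nonneg g3) g1 E) (pow_nonneg (Real.log_nonneg g3) E) (by positivity)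

/-- the error of the prime powers is small -/
lemma ev_err (ε δ : ℝ) (hε : 0 < ε) (hε4 : ε ≤ 1 / 4) (hδ : 0 < δ) : ∀ᶠ N : ℕ in atTop, ∀ l : ℕ, 1 ≤ l →
    (l : ℝ) ≤ (N : ℝ) ^ (1 - ε) → 2 * Real.log ((l ^ 2 + N ^ 2 : ℕ) : ℝ) *
      (l + (Nat.log 2 (l ^ 2 + N ^ 2) + 1) * (((l ^ 2 + N ^ 2 : ℕ) : ℝ) ^ (1 / 3 : ℝ) + 1)) ≤ δ * N := by
  filter_upwards [rpow_ge_log ε hε 2 (1000 / δ) (by positivity), eventually_ge_atTop 3] with N h1 hN3 l hl1 hl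
  have hNr : (3 : ℝ) ≤ N := by exact_mod_cast hN3
  have hN0 : (0 : ℝ) < N := by linarith
  have hlog1 : 1 ≤ Real.log N := by
    rw [Real.le_log_iff_exp_le hN0]
    have := Real.exp_one_lt_d9
    linarith
  have hlN : (l : ℝ) ≤ N := by
    refine hl.trans ?_
    calc (N : ℝ) ^ (1 - ε) ≤ (N : ℝ) ^ (1 : ℝ) := Real.rpow_le_rpow_of_exponent_le (by linarith) (by linarith)
      _ = N := Real.rpow_one _
  obtain ⟨X, hX⟩ : ∃ X : ℕ, X = l ^ 2 + N ^ 2 := ⟨_, rfl⟩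
  rw [← hX]
  have hXr : (X : ℝ) ≤ 2 * (N : ℝ) ^ 2 := by
    rw [hX]
    push_cast
    have : (l : ℝ) ^ 2 ≤ (N : ℝ) ^ 2 := pow_le_pow_left₀ (Nat.cast_nonneg _) hlN 2
    linarith
  have hX1 : 1 ≤ X := by
    rw [hX]
    have : 1 ≤ l ^ 2 := Nat.one_le_pow _ _ hl1
    omega
  have hX1r : (1 : ℝ) ≤ X := by exact_mod_cast hX1
  have hX3 : (X : ℝ) ≤ (N : ℝ) ^ 3 := by nlinarith
  have hlogX : Real.log X ≤ 3 * Real.log N := by
    have := Real.log_le_log (by linarith) hX3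
    rw [Real.log_pow] at this
    exact_mod_cast this
  have hlogX0 : 0 ≤ Real.log X := Real.log_nonneg hX1r
  have hnl : (Nat.log 2 X : ℝ) ≤ 6 * Real.log N := by
    have h2 : (2 : ℝ) ^ (Nat.log 2 X) ≤ X := by
      exact_mod_cast Nat.pow_log_le_self 2 (by omega)
    have h3 := Real.log_le_log (by positivity) h2
    rw [Real.log_pow] at h3
    have h4 : (0.5 : ℝ) ≤ Real.log 2 := by have := Real.log_two_gt_d9; linarith
    have h5 : (0 : ℝ) ≤ Nat.log 2 X := Nat.cast_nonneg _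
    nlinarith
  have hc3 : (X : ℝ) ^ (1 / 3 : ℝ) ≤ 2 * (N : ℝ) ^ (2 / 3 : ℝ) := by
    calc (X : ℝ) ^ (1 / 3 : ℝ) ≤ (2 * (N : ℝ) ^ 2) ^ (1 / 3 : ℝ) :=
          Real.rpow_le_rpow (by linarith) hXr (by norm_num)
      _ = (2 : ℝ) ^ (1 / 3 : ℝ) * (N : ℝ) ^ (2 / 3 : ℝ) := by
          rw [Real.mul_rpow (by norm_num) (by positivity), ← Real.rpow_natCast (N : ℝ) 2, ← Real.rpow_mul hN0.le]
          norm_num
      _ ≤ 2 * (N : ℝ) ^ (2 / 3 : ℝ) := by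
          apply mul_le_mul_of_nonneg_right _ (by positivity)
          calc (2 : ℝ) ^ (1 / 3 : ℝ) ≤ (2 : ℝ) ^ (1 : ℝ) := Real.rpow_le_rpow_of_exponent_le (by norm_num) (by norm_num)
            _ = 2 := Real.rpow_one _
  obtain ⟨Y, hY⟩ : ∃ Y : ℝ, Y = (N : ℝ) ^ (1 - ε) := ⟨_, rfl⟩
  have hY23 : (N : ℝ) ^ (2 / 3 : ℝ) ≤ Y := by
    rw [hY]
    exact Real.rpow_le_rpow_of_exponent_le (by linarith) (by linarith)
  have hY1 : 1 ≤ Y := by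
    rw [hY]
    exact Real.one_le_rpow (by linarith) (by linarith)
  rw [← hY] at hl
  obtain ⟨ℓ, hℓ⟩ : ∃ ℓ : ℝ, ℓ = Real.log N := ⟨_, rfl⟩
  rw [← hℓ] at hlogX hnl hlog1 h1
  have h5 : (l : ℝ) + (Nat.log 2 X + 1) * ((X : ℝ) ^ (1 / 3 : ℝ) + 1) ≤ 25 * (ℓ * Y) := by
    have h6 : (X : ℝ) ^ (1 / 3 : ℝ) + 1 ≤ 3 * Y := by linarith
    have h7 : (Nat.log 2 X : ℝ) + 1 ≤ 7 * ℓ := by linarith
    have h8 : ((Nat.log 2 X : ℝ) + 1) * ((X : ℝ) ^ (1 / 3 : ℝ) + 1) ≤ 7 * ℓ * (3 * Y) := by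
      apply mul_le_mul h7 h6 (by positivity) (by positivity)
    nlinarith
  have h9 : 2 * Real.log X ≤ 6 * ℓ := by linarith
  have h10 : 2 * Real.log X * (l + (Nat.log 2 X + 1) * ((X : ℝ) ^ (1 / 3 : ℝ) + 1)) ≤ 6 * ℓ * (25 * (ℓ * Y)) := by
    apply mul_le_mul h9 h5 (by positivity) (by positivity)
  refine h10.trans ?_
  have h11 : (N : ℝ) = Y * (N : ℝ) ^ ε := by
    rw [hY, ← Real.rpow_add hN0]
    ring_nf
    rw [Real.rpow_one]
  have h12 : 1000 * ℓ ^ 2 ≤ δ * (N : ℝ) ^ ε := by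
    rw [div_mul_eq_mul_div, div_le_iff₀ hδ] at h1
    linarith
  calc 6 * ℓ * (25 * (ℓ * Y)) = 150 * ℓ ^ 2 * Y := by ring
    _ ≤ 1000 * ℓ ^ 2 * Y := by
        apply mul_le_mul_of_nonneg_right _ (by linarith)
        nlinarith
    _ ≤ δ * (N : ℝ) ^ ε * Y := mul_le_mul_of_nonneg_right h12 (by linarith)
    _ = δ * (Y * (N : ℝ) ^ ε) := by ring
    _ = δ * N := by rw [← h11]

/-- `θ` and the number of primes -/
lemma TH_le (l N : ℕ) (hl : 1 ≤ l) (hlN : l ≤ N) :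
    TH (fun _ => 1) l N ≤ Real.log (2 * (N : ℝ) ^ 2) * P ((l : ℤ) ^ 2) N := by
  classical
  unfold TH P
  have e1 : (Icc 1 N).filter (fun n : ℕ => Nat.Prime ((n : ℤ) ^ 2 + (l : ℤ) ^ 2).natAbs) =
      (Icc 1 N).filter (fun n : ℕ => (l ^ 2 + n ^ 2).Prime) := by
    apply filter_congr
    intro n _
    have : ((n : ℤ) ^ 2 + (l : ℤ) ^ 2).natAbs = l ^ 2 + n ^ 2 := by
      have h : ((n : ℤ) ^ 2 + (l : ℤ) ^ 2) = ((l ^ 2 + n ^ 2 : ℕ) : ℤ) := by push_cast; ring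
      rw [h, Int.natAbs_natCast]
    rw [this]
  rw [e1, card_eq_sum_ones, Nat.cast_sum, mul_sum, sum_filter]
  apply sum_le_sum
  intro m hm
  rw [mem_Icc] at hm
  split_ifs with h
  · rw [one_mul, Nat.cast_one, mul_one]
    apply Real.log_le_log
    · have : 0 < l ^ 2 + m ^ 2 := by positivity
      exact_mod_cast this
    · have h1 : (l : ℝ) ^ 2 ≤ (N : ℝ) ^ 2 := pow_le_pow_left₀ (Nat.cast_nonneg _) (by exact_mod_cast hlN) 2
      have h2 : (m : ℝ) ^ 2 ≤ (N : ℝ) ^ 2 := pow_le_pow_left₀ (Nat.cast_nonneg _) (by exact_mod_cast hm.2) 2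
      push_cast
      linarith
  · simp

/-- GFM in terms of `TT` -/
lemma GFM_nat (h : Run7.h757.GP.S_GFM) (ε : ℝ) (hε : 0 < ε) : ∃ C : ℝ, 0 < C ∧ ∀ N L : ℕ, 3 ≤ N →
    (N : ℝ) ^ (1 / 2 + ε) ≤ L → (L : ℝ) ≤ (N : ℝ) ^ (1 - ε) →
    |∑ l ∈ Icc 1 L, (TT (fun _ => 1) l N - N * SS (l : ℤ))| ≤ C * L * N / Real.log N := by
  obtain ⟨C, hC, h1⟩ := h ε 1 hε
  refine ⟨C, hC, fun N L hN h2 h3 => ?_⟩
  have h4 := h1 N L (by exact_mod_cast hN) h2 h3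
  rw [pow_one, Int.floor_natCast, Int.floor_natCast] at h4
  have e1 : ∑ l ∈ Icc (1 : ℤ) (L : ℤ), (∑ m ∈ Icc (1 : ℤ) (N : ℤ), ArithmeticFunction.vonMangoldt (l ^ 2 + m ^ 2).natAbs -
      (N : ℝ) * SS l) = ∑ l ∈ Icc 1 L, (TT (fun _ => 1) l N - N * SS (l : ℤ)) := by
    rw [sum_int_nat]
    apply sum_congr rfl
    intro l _
    rw [sum_int_nat]
    unfold TT
    congr 1
    apply sum_congr rfl
    intro m _
    rw [one_mul]
    congr 1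
  rw [e1] at h4
  exact h4

/-- **the first moment of the number of primes** -/
theorem first_moment (hs : S_SSL) (h : Run7.h757.GP.S_GFM) (θ : ℝ) (hθ : 0 < θ) (ε : ℝ) (hε : 0 < ε) :
    ∃ N₀ : ℕ, ∀ N : ℕ, N₀ ≤ N → ∀ L : ℕ, (N : ℝ) ^ (1 / 2 + ε) ≤ L → (L : ℝ) ≤ (N : ℝ) ^ (1 - ε) →
      1 / 2 * (N / Real.log N) * ∑ l ∈ Icc 1 L, SS (l : ℤ) ≤
        (1 + θ) * ∑ l ∈ Icc 1 L, (P ((l : ℤ) ^ 2) N : ℝ) + θ * (N / Real.log N) * L := by
  obtain ⟨C, hC, h1⟩ := GFM_nat h ε hε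
  have hε' : 0 < min ε (1 / 4) := lt_min hε (by norm_num)
  have hev := ev_err (min ε (1 / 4)) θ hε' (min_le_right _ _) hθ
  have hlogt : Tendsto (fun N : ℕ => Real.log N) atTop atTop :=
    Real.tendsto_log_atTop.comp tendsto_natCast_atTop_atTop
  have hev2 := hlogt.eventually_ge_atTop (max (C / θ) (1 / θ))
  obtain ⟨N₀, hN₀⟩ := eventually_atTop.1 (hev.and (hev2.and (eventually_ge_atTop 3)))
  refine ⟨N₀, fun N hN L hL1 hL2 => ?_⟩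
  obtain ⟨g1, g2, g3⟩ := hN₀ N hN
  have hNr : (3 : ℝ) ≤ N := by exact_mod_cast g3
  have hN0 : (0 : ℝ) < N := by linarith
  obtain ⟨ℓ, hℓ⟩ : ∃ ℓ : ℝ, ℓ = Real.log N := ⟨_, rfl⟩
  have h2 := h1 N L g3 hL1 hL2
  rw [← hℓ] at g2 h2 ⊢
  have hℓ1 : 1 ≤ ℓ := by
    rw [hℓ, Real.le_log_iff_exp_le hN0]
    have := Real.exp_one_lt_d9
    linarith
  have hℓ0 : 0 < ℓ := by linarith
  have hCθ : C ≤ θ * ℓ := by
    have := (le_max_left _ _).trans g2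
    rw [div_le_iff₀ hθ] at this
    linarith
  have h1θ : 1 ≤ θ * ℓ := by
    have := (le_max_right _ _).trans g2
    rw [div_le_iff₀ hθ] at this
    linarith
  have hL0 : (0 : ℝ) ≤ L := Nat.cast_nonneg _
  have hLN : ∀ l ∈ Icc 1 L, (l : ℝ) ≤ (N : ℝ) ^ (1 - min ε (1 / 4)) := by
    intro l hl
    have : (l : ℝ) ≤ L := by exact_mod_cast (mem_Icc.1 hl).2
    refine this.trans (hL2.trans ?_)
    exact Real.rpow_le_rpow_of_exponent_le (by linarith) (by linarith [min_le_left ε (1 / 4 : ℝ)])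
  have hlN : ∀ l ∈ Icc 1 L, l ≤ N := by
    intro l hl
    have h3 := hLN l hl
    have : (N : ℝ) ^ (1 - min ε (1 / 4)) ≤ N := by
      calc (N : ℝ) ^ (1 - min ε (1 / 4)) ≤ (N : ℝ) ^ (1 : ℝ) :=
            Real.rpow_le_rpow_of_exponent_le (by linarith) (by linarith)
        _ = N := Real.rpow_one _
    exact_mod_cast h3.trans this
  -- pointwise
  have hpt : ∀ l ∈ Icc 1 L, TT (fun _ => 1) l N ≤ Real.log (2 * (N : ℝ) ^ 2) * P ((l : ℤ) ^ 2) N + θ * N := by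
    intro l hl
    have hl1 := (mem_Icc.1 hl).1
    have h3 := TT_TH (fun _ => 1) (fun _ => ⟨by norm_num, by norm_num⟩) l N N hl1 le_rfl
    have h4 := g1 l hl1 (hLN l hl)
    have h5 := TH_le l N hl1 (hlN l hl)
    have h6 := (abs_le.1 (h3.trans h4)).2
    linarith
  have hsum := sum_le_sum hpt
  rw [sum_add_distrib, ← mul_sum, sum_const, Nat.card_Icc, Nat.add_sub_cancel, nsmul_eq_mul] at hsum
  rw [sum_sub_distrib, ← mul_sum] at h2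
  have h7 := (abs_le.1 h2).1
  have h8 : C * L * N / ℓ ≤ θ * (L * N) := by
    rw [div_le_iff₀ hℓ0]
    have : 0 ≤ (L : ℝ) * N := by positivity
    nlinarith
  obtain ⟨SP, hSP⟩ : ∃ SP : ℝ, SP = ∑ l ∈ Icc 1 L, (P ((l : ℤ) ^ 2) N : ℝ) := ⟨_, rfl⟩
  obtain ⟨ST, hST⟩ : ∃ ST : ℝ, ST = ∑ l ∈ Icc 1 L, SS (l : ℤ) := ⟨_, rfl⟩
  rw [← hSP] at hsum ⊢
  rw [← hST] at h7 ⊢
  have hSP0 : 0 ≤ SP := by rw [hSP]; positivity
  have hlog2 : Real.log (2 * (N : ℝ) ^ 2) ≤ 2 * ℓ * (1 + θ) := by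
    rw [Real.log_mul (by norm_num) (by positivity), Real.log_pow, ← hℓ]
    have : Real.log 2 ≤ 1 := by have := Real.log_two_lt_d9; linarith
    push_cast
    nlinarith
  have h9 : N * ST ≤ 2 * ℓ * (1 + θ) * SP + 2 * (θ * (L * N)) := by
    have := mul_le_mul_of_nonneg_right hlog2 hSP0
    linarith
  have h10 : 1 / 2 * (N / ℓ) * ST = (N * ST) / (2 * ℓ) := by field_simp
  rw [h10, div_le_iff₀ (by positivity)]
  calc N * ST ≤ 2 * ℓ * (1 + θ) * SP + 2 * (θ * (L * N)) := h9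
    _ = ((1 + θ) * SP + θ * (N / ℓ) * L) * (2 * ℓ) := by field_simp

end Run7.h328.GP
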