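import Mathlib
import Pool.Agent.Run7.h328.GP.C

/-!
# Piece GP-GPOS: the positive proportion of the `l`
-/

set_option autoImplicit false

namespace Run7.h328.GP

open Finset Filter Topology
open Pool.Agent.N782.GN (pp SS S_SSL)
open Run7.h757.BP (P)
open Run7.h757.GP (hprod Good S_GFM S_GPOS)

/-- upper bound for the logarithmic integral (from `Pool.Agent.N792.li_upper`) -/
lemma li_upper (η : ℝ) (hη : 0 < η) : ∀ᶠ N : ℕ in atTop,
    ∫ t in (2 : ℝ)..(N : ℝ), 1 / Real.log t ≤ (1 + η) * (N / Real.log N) := by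
  obtain ⟨δ, hδ⟩ : ∃ δ : ℝ, δ = min (1 / 4) (η / 4) := ⟨_, rfl⟩
  have hδ0 : 0 < δ := by rw [hδ]; positivity
  have hδ1 : δ ≤ 1 / 4 := by rw [hδ]; exact min_le_left _ _
  have hδ2 : δ ≤ η / 4 := by rw [hδ]; exact min_le_right _ _
  have hl2 : 0 < Real.log 2 := Real.log_pos (by norm_num)
  filter_upwards [rpow_ge_log δ hδ0 1 (1 / (δ * Real.log 2)) (by positivity),
    rpow_ge_log (1 - δ) (by linarith) 0 2 (by norm_num), eventually_ge_atTop 3] with N h1 h2 h4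
  rw [pow_one] at h1
  rw [pow_zero, mul_one] at h2
  have hN : (3 : ℝ) ≤ N := by exact_mod_cast h4
  have hN0 : (0 : ℝ) < N := by linarith
  have h3 : 1 ≤ Real.log N := by
    rw [Real.le_log_iff_exp_le hN0]
    have := Real.exp_one_lt_d9
    linarith
  obtain ⟨y, hy⟩ : ∃ y : ℝ, y = (N : ℝ) ^ (1 - δ) := ⟨_, rfl⟩
  rw [← hy] at h2
  have hyN : y ≤ N := by
    rw [hy]
    calc (N : ℝ) ^ (1 - δ) ≤ (N : ℝ) ^ (1 : ℝ) := Real.rpow_le_rpow_of_exponent_le (by linarith) (by linarith)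
      _ = N := Real.rpow_one _
  have hint : ∀ u v : ℝ, 2 ≤ u → u ≤ v → IntervalIntegrable (fun t => 1 / Real.log t) MeasureTheory.volume u v := by
    intro u v hu huv
    apply ContinuousOn.intervalIntegrable
    rw [Set.uIcc_of_le huv]
    apply ContinuousOn.div continuousOn_const
    · apply Real.continuousOn_log.mono
      intro t ht
      rw [Set.mem_Icc] at ht
      simp only [Set.mem_compl_iff, Set.mem_singleton_iff]
      linarith
    · intro t ht
      rw [Set.mem_Icc] at ht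
      exact (Real.log_pos (by linarith)).ne'
  rw [← intervalIntegral.integral_add_adjacent_intervals (hint 2 y le_rfl h2) (hint y N h2 hyN)]
  have i1 : ∫ t in (2 : ℝ)..y, 1 / Real.log t ≤ y / Real.log 2 := by
    have h := intervalIntegral.norm_integral_le_of_norm_le_const (a := (2 : ℝ)) (b := y)
      (f := fun t => 1 / Real.log t) (C := 1 / Real.log 2) (by
        intro t ht
        rw [Set.uIoc_of_le h2] at ht
        have h3 : Real.log 2 ≤ Real.log t := Real.log_le_log (by norm_num) ht.1.le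
        rw [Real.norm_eq_abs, abs_of_pos (by
          have : 0 < Real.log t := by linarith
          positivity)]
        exact one_div_le_one_div_of_le hl2 h3)
    rw [Real.norm_eq_abs, abs_of_nonneg (by linarith : 0 ≤ y - 2)] at h
    refine (le_abs_self _).trans (h.trans ?_)
    calc 1 / Real.log 2 * (y - 2) ≤ 1 / Real.log 2 * y := mul_le_mul_of_nonneg_left (by linarith) (by positivity)
      _ = y / Real.log 2 := by ring
  obtain ⟨L, hL⟩ : ∃ L : ℝ, L = Real.log N := ⟨_, rfl⟩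
  rw [← hL] at h1 h3 ⊢
  have hL0 : 0 < L := by linarith
  have i2 : ∫ t in y..(N : ℝ), 1 / Real.log t ≤ N / ((1 - δ) * L) := by
    have hly : Real.log y = (1 - δ) * L := by rw [hy, Real.log_rpow hN0, hL]
    have h := intervalIntegral.norm_integral_le_of_norm_le_const (a := y) (b := (N : ℝ))
      (f := fun t => 1 / Real.log t) (C := 1 / ((1 - δ) * L)) (by
        intro t ht
        rw [Set.uIoc_of_le hyN] at ht
        have h3 : Real.log y ≤ Real.log t := Real.log_le_log (by linarith) ht.1.le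
        rw [hly] at h3
        have h5 : 0 < (1 - δ) * L := mul_pos (by linarith) hL0
        rw [Real.norm_eq_abs, abs_of_pos (by
          have : 0 < Real.log t := by linarith
          positivity)]
        exact one_div_le_one_div_of_le h5 h3)
    rw [Real.norm_eq_abs, abs_of_nonneg (by linarith : 0 ≤ N - y)] at h
    refine (le_abs_self _).trans (h.trans ?_)
    have h5 : 0 < (1 - δ) * L := mul_pos (by linarith) hL0
    calc 1 / ((1 - δ) * L) * (N - y) ≤ 1 / ((1 - δ) * L) * N :=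
          mul_le_mul_of_nonneg_left (by linarith) (by positivity)
      _ = N / ((1 - δ) * L) := by ring
  have i3 : y / Real.log 2 ≤ δ * (N / L) := by
    have e1 : (N : ℝ) = y * (N : ℝ) ^ δ := by
      rw [hy, ← Real.rpow_add hN0]
      ring_nf
      rw [Real.rpow_one]
    have h5 : L ≤ δ * Real.log 2 * (N : ℝ) ^ δ := by
      rw [div_mul_eq_mul_div, one_mul, div_le_iff₀ (by positivity)] at h1
      linarith
    rw [div_le_iff₀ hl2]
    have h6 : δ * (N / L) * Real.log 2 = y * (δ * Real.log 2 * (N : ℝ) ^ δ) / L := by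
      nth_rw 1 [e1]
      ring
    rw [h6, le_div_iff₀ hL0]
    exact mul_le_mul_of_nonneg_left h5 (by linarith)
  have i4 : (N : ℝ) / ((1 - δ) * L) ≤ (1 + 2 * δ) * (N / L) := by
    have h5 : 0 < (1 - δ) * L := mul_pos (by linarith) hL0
    rw [div_le_iff₀ h5]
    have h6 : (1 + 2 * δ) * (N / L) * ((1 - δ) * L) = (1 + 2 * δ) * (1 - δ) * N := by field_simp
    rw [h6]
    have h7 : 1 ≤ (1 + 2 * δ) * (1 - δ) := by nlinarith
    nlinarith
  have h8 : 0 ≤ (N : ℝ) / L := by positivity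
  have h9 : δ * (N / L) + (1 + 2 * δ) * (N / L) ≤ (1 + η) * (N / L) := by
    have : (1 + 3 * δ) * (N / L) ≤ (1 + η) * (N / L) := mul_le_mul_of_nonneg_right (by linarith) h8
    linarith
  linarith

lemma int_nonneg {N : ℕ} (hN : 2 ≤ N) : 0 ≤ ∫ t in (2 : ℝ)..(N : ℝ), 1 / Real.log t := by
  apply intervalIntegral.integral_nonneg (by exact_mod_cast hN)
  intro t ht
  rw [Set.mem_Icc] at ht
  have := Real.log_nonneg (show (1 : ℝ) ≤ t by linarith)
  positivity

lemma Good.mono {η η' : ℝ} {N l : ℕ} (hN : 2 ≤ N) (h : η' ≤ η) (hg : Good η' N l) : Good η N l := by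
  obtain ⟨H, h0, h1, h2⟩ := hg
  refine ⟨H, h0, h1, le_trans ?_ h2⟩
  apply mul_le_mul_of_nonneg_right (by linarith)
  have := int_nonneg hN
  positivity

lemma jac_sq {l p : ℕ} (hp : p.Prime) (h3 : 3 ≤ p) :
    (jacobiSym (-((l : ℤ) ^ 2)) p : ℝ) = if (p : ℤ) ∣ (l : ℤ) then 0 else ch p := by
  have hodd : Odd p := hp.odd_of_ne_two (by omega)
  have e1 : -((l : ℤ) ^ 2) = (-1) * (l : ℤ) ^ 2 := by ring
  rw [e1, jacobiSym.mul_left, jacobiSym.at_neg_one hodd]
  split_ifs with hd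
  · have : jacobiSym ((l : ℤ) ^ 2) p = 0 := by
      have : NeZero p := ⟨hp.ne_zero⟩
      rw [jacobiSym.eq_zero_iff_not_coprime]
      intro hg
      have h4 : (p : ℤ) ∣ ((l : ℤ) ^ 2).gcd p := by
        apply Int.dvd_coe_gcd
        · exact Dvd.dvd.trans hd (dvd_pow_self _ (by norm_num))
        · exact dvd_rfl
      rw [hg] at h4
      have h5 : (p : ℤ) ≤ 1 := Int.le_of_dvd (by norm_num) (by exact_mod_cast h4)
      omega
    rw [this]
    simp
  · have : jacobiSym ((l : ℤ) ^ 2) p = 1 := by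
      apply jacobiSym.sq_one'
      rw [Int.gcd_comm, ← Int.isCoprime_iff_gcd_eq_one]
      have hpp : Prime (p : ℤ) := Nat.prime_iff_prime_int.1 hp
      rw [Prime.coprime_iff_not_dvd hpp]
      exact hd
    rw [this]
    simp [ch]

lemma hprod_eq (l X : ℕ) : hprod ((l : ℤ) ^ 2) X = pp (l : ℤ) X := by
  unfold hprod pp
  have hs : (range (X + 1)).filter (fun w => Nat.Prime w ∧ w ≠ 2) = (Icc 3 X).filter Nat.Prime := by
    ext p
    simp only [mem_filter, mem_Icc, mem_range]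
    constructor
    · rintro ⟨h1, h2, h3⟩
      have := h2.two_le
      exact ⟨⟨by omega, by omega⟩, h2⟩
    · rintro ⟨⟨h1, h2⟩, h3⟩
      exact ⟨by omega, h3, by omega⟩
  rw [hs, ← filter_filter, prod_filter (fun p : ℕ => ¬ (p : ℤ) ∣ (l : ℤ))]
  apply prod_congr rfl
  intro p hp
  rw [mem_filter, mem_Icc] at hp
  rw [jac_sq hp.2 hp.1.1]
  by_cases h : (p : ℤ) ∣ (l : ℤ)
  · simp [h]
  · simp [h, ch]

open Classical in
/-- **GPOS** -/
theorem gpos (hs : S_SSL) (hu : Run7.h757.BP.S_UP) (hf : S_GFM) : S_GPOS := by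
  intro η0 hη0
  obtain ⟨C1, hC1, N1, hup⟩ := up_G hs hu
  obtain ⟨C2, hC2, hsq⟩ := sum_G_sq
  have hS1 : 0 < SS 1 := (hs 1 (by norm_num)).2
  obtain ⟨η, hη⟩ : ∃ η : ℝ, η = min η0 1 := ⟨_, rfl⟩
  have hη1 : η ≤ 1 := by rw [hη]; exact min_le_right _ _
  have hη2 : η ≤ η0 := by rw [hη]; exact min_le_left _ _
  have hηp : 0 < η := by rw [hη]; exact lt_min hη0 one_pos
  obtain ⟨c0, hc0⟩ : ∃ c0 : ℝ, c0 = SS 1 / C2 := ⟨_, rfl⟩
  have hc0p : 0 < c0 := by rw [hc0]; positivity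
  obtain ⟨θ, hθ⟩ : ∃ θ : ℝ, θ = η * c0 / (16 * (1 + c0)) := ⟨_, rfl⟩
  have hθp : 0 < θ := by rw [hθ]; positivity
  have hθ1 : θ ≤ η / 16 := by
    rw [hθ, div_le_div_iff₀ (by positivity) (by norm_num)]
    nlinarith
  have hθ2 : θ ≤ η * c0 / 16 := by
    rw [hθ, div_le_div_iff₀ (by positivity) (by norm_num)]
    nlinarith [mul_pos hηp hc0p, mul_pos (mul_pos hηp hc0p) hc0p]
  obtain ⟨α, hα⟩ : ∃ α : ℝ, α = η * c0 / (16 * C1) := ⟨_, rfl⟩
  have hαp : 0 < α := by rw [hα]; positivity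
  refine ⟨α ^ 2 / C2, by positivity, fun ε hε => ?_⟩
  obtain ⟨N2, hfm⟩ := first_moment hs hf θ hθp ε hε
  have hev := (li_upper θ hθp).and (rpow_ge_log (1 / 4) (by norm_num) 1 (16 * C1 / (η * c0)) (by positivity))
  obtain ⟨N3, hN3⟩ := eventually_atTop.1 hev
  refine ⟨max (max N1 N2) (max N3 3), fun N hN L hL1 hL2 => ?_⟩
  have hNa : N1 ≤ N := le_trans (le_trans (le_max_left _ _) (le_max_left _ _)) hN
  have hNb : N2 ≤ N := le_trans (le_trans (le_max_right _ _) (le_max_left _ _)) hN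
  have hNc : N3 ≤ N := le_trans (le_trans (le_max_left _ _) (le_max_right _ _)) hN
  have hNd : 3 ≤ N := le_trans (le_trans (le_max_right _ _) (le_max_right _ _)) hN
  obtain ⟨g1, g2⟩ := hN3 N hNc
  have hNr : (3 : ℝ) ≤ N := by exact_mod_cast hNd
  have hN0 : (0 : ℝ) < N := by linarith
  have hfm' := hfm N hNb L hL1 hL2
  obtain ⟨ℓ, hℓ⟩ : ∃ ℓ : ℝ, ℓ = Real.log N := ⟨_, rfl⟩
  have hℓ0 : 0 < ℓ := by
    rw [hℓ]; exact Real.log_pos (by linarith)
  obtain ⟨NL, hNL⟩ : ∃ NL : ℝ, NL = N / Real.log N := ⟨_, rfl⟩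
  have hNL0 : 0 < NL := by rw [hNL, ← hℓ]; positivity
  rw [← hNL] at g1 hfm'
  have hLpos : 1 ≤ L := by
    have : (0 : ℝ) < L := lt_of_lt_of_le (by positivity) hL1
    exact_mod_cast this
  have hL0 : (0 : ℝ) < L := by exact_mod_cast hLpos
  have hsqL := hsq L
  have hST := sum_SS_ge hs hC2 hLpos hsqL
  obtain ⟨ST, hSTd⟩ : ∃ ST : ℝ, ST = ∑ l ∈ Icc 1 L, SS (l : ℤ) := ⟨_, rfl⟩
  rw [← hSTd, ← hc0] at hST
  rw [← hSTd] at hfm'
  -- small error
  have herr : C1 * (N : ℝ) ^ (3 / 4 : ℝ) ≤ η * c0 / 16 * NL := by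
    have h8 : (N : ℝ) = (N : ℝ) ^ (3 / 4 : ℝ) * (N : ℝ) ^ (1 / 4 : ℝ) := by
      rw [← Real.rpow_add hN0]
      norm_num
    rw [hNL, ← hℓ, mul_div_assoc', le_div_iff₀ hℓ0]
    have h9 : C1 * ℓ ≤ η * c0 / 16 * (N : ℝ) ^ (1 / 4 : ℝ) := by
      rw [pow_one, ← hℓ, div_mul_eq_mul_div, div_le_iff₀ (by positivity)] at g2
      linarith
    calc C1 * (N : ℝ) ^ (3 / 4 : ℝ) * ℓ = (N : ℝ) ^ (3 / 4 : ℝ) * (C1 * ℓ) := by ring
      _ ≤ (N : ℝ) ^ (3 / 4 : ℝ) * (η * c0 / 16 * (N : ℝ) ^ (1 / 4 : ℝ)) := by gcongr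
      _ = η * c0 / 16 * ((N : ℝ) ^ (3 / 4 : ℝ) * (N : ℝ) ^ (1 / 4 : ℝ)) := by ring
      _ = η * c0 / 16 * N := by rw [← h8]
  have hI0 := int_nonneg (show 2 ≤ N by omega)
  obtain ⟨I, hI⟩ : ∃ I : ℝ, I = ∫ t in (2 : ℝ)..(N : ℝ), 1 / Real.log t := ⟨_, rfl⟩
  rw [← hI] at g1 hI0
  have hSSpos : ∀ l ∈ Icc 1 L, 0 < SS (l : ℤ) := fun l hl => (hs l (by have := (mem_Icc.1 hl).1; omega)).2
  -- bad `l`
  have hbad : ∀ l ∈ Icc 1 L, ¬ Good η N l → (P ((l : ℤ) ^ 2) N : ℝ) ≤ (1 - η) * (1 + θ) * (1 / 2 * NL * SS (l : ℤ)) := by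
    intro l hl hng
    have hlt : (P ((l : ℤ) ^ 2) N : ℝ) < (1 - η) * (1 / 2 * SS (l : ℤ) * I) := by
      by_contra hcon
      push Not at hcon
      refine hng ⟨SS (l : ℤ), hSSpos l hl, ?_, by rw [← hI]; exact hcon⟩
      refine ((hs l (by have := (mem_Icc.1 hl).1; omega)).1).congr fun X => ?_
      exact (hprod_eq l X).symm
    refine hlt.le.trans ?_
    have h1 : 0 ≤ 1 - η := by linarith
    have h2 := (hSSpos l hl).le
    calc (1 - η) * (1 / 2 * SS (l : ℤ) * I) ≤ (1 - η) * (1 / 2 * SS (l : ℤ) * ((1 + θ) * NL)) := by gcongr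
      _ = _ := by ring
  obtain ⟨GS, hGS⟩ : ∃ GS : Finset ℕ, GS = (Icc 1 L).filter (fun l : ℕ => Good η N l) := ⟨_, rfl⟩
  have hsplit : ∑ l ∈ Icc 1 L, (P ((l : ℤ) ^ 2) N : ℝ) ≤
      ∑ l ∈ GS, (P ((l : ℤ) ^ 2) N : ℝ) + (1 - η) * (1 + θ) * (1 / 2 * NL * ST) := by
    rw [← sum_filter_add_sum_filter_not (Icc 1 L) (fun l : ℕ => Good η N l), ← hGS]
    have h1 : 0 ≤ 1 - η := by linarith
    have h3 : ∑ l ∈ (Icc 1 L).filter (fun l : ℕ => ¬ Good η N l), (P ((l : ℤ) ^ 2) N : ℝ) ≤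
        ∑ l ∈ Icc 1 L, (1 - η) * (1 + θ) * (1 / 2 * NL * SS (l : ℤ)) := by
      refine le_trans (sum_le_sum fun l hl => hbad l (mem_filter.1 hl).1 (mem_filter.1 hl).2) ?_
      apply sum_le_sum_of_subset_of_nonneg (filter_subset _ _)
      intro l hl _
      have := (hSSpos l hl).le
      positivity
    have h4 : ∑ l ∈ Icc 1 L, (1 - η) * (1 + θ) * (1 / 2 * NL * SS (l : ℤ)) = (1 - η) * (1 + θ) * (1 / 2 * NL * ST) := by
      rw [hSTd, mul_sum, mul_sum]
    linarith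
  -- good `l`
  have hgood : ∑ l ∈ GS, (P ((l : ℤ) ^ 2) N : ℝ) ≤ C1 * NL * ∑ l ∈ GS, G l + L * (η * c0 / 16 * NL) := by
    have h1 : ∀ l ∈ GS, (P ((l : ℤ) ^ 2) N : ℝ) ≤ C1 * NL * G l + η * c0 / 16 * NL := by
      intro l hl
      rw [hGS, mem_filter, mem_Icc] at hl
      have := hup N hNa l hl.1.1
      rw [← hNL] at this
      linarith
    refine (sum_le_sum h1).trans ?_
    rw [sum_add_distrib, ← mul_sum, sum_const, nsmul_eq_mul]
    have h2 : (#GS : ℝ) ≤ L := by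
      have : #GS ≤ #(Icc 1 L) := by rw [hGS]; exact card_filter_le _ _
      rw [Nat.card_Icc, Nat.add_sub_cancel] at this
      exact_mod_cast this
    have h3 : (#GS : ℝ) * (η * c0 / 16 * NL) ≤ L * (η * c0 / 16 * NL) := by gcongr
    linarith
  obtain ⟨SG, hSG⟩ : ∃ SG : ℝ, SG = ∑ l ∈ GS, G l := ⟨_, rfl⟩
  rw [← hSG] at hgood
  -- the lower bound for the sum of `G`
  have hmain : α * L ≤ SG := by
    obtain ⟨SPG, hSPG⟩ : ∃ SPG : ℝ, SPG = ∑ l ∈ GS, (P ((l : ℤ) ^ 2) N : ℝ) := ⟨_, rfl⟩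
    rw [← hSPG] at hsplit hgood
    have h1 : 1 / 2 * NL * ST ≤ (1 + θ) * (SPG + (1 - η) * (1 + θ) * (1 / 2 * NL * ST)) + θ * NL * L := by
      have : (1 + θ) * ∑ l ∈ Icc 1 L, (P ((l : ℤ) ^ 2) N : ℝ) ≤
          (1 + θ) * (SPG + (1 - η) * (1 + θ) * (1 / 2 * NL * ST)) := by
        apply mul_le_mul_of_nonneg_left hsplit (by linarith)
      linarith
    obtain ⟨U, hU⟩ : ∃ U : ℝ, U = 1 / 2 * NL * ST := ⟨_, rfl⟩
    rw [← hU] at h1
    have hU1 : c0 / 2 * (NL * L) ≤ U := by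
      rw [hU]
      have := mul_le_mul_of_nonneg_left hST (show 0 ≤ 1 / 2 * NL by positivity)
      calc c0 / 2 * (NL * L) = 1 / 2 * NL * (c0 * L) := by ring
        _ ≤ _ := this
    have hNLL : 0 < NL * L := by positivity
    have hU0 : 0 < U := lt_of_lt_of_le (by positivity) hU1
    have hθs : (1 - η) * (1 + θ) ^ 2 ≤ 1 - 3 / 4 * η := by
      have h2 : (1 + θ) ^ 2 ≤ 1 + η / 4 := by nlinarith
      have h3 : 0 ≤ 1 - η := by linarith
      calc (1 - η) * (1 + θ) ^ 2 ≤ (1 - η) * (1 + η / 4) := mul_le_mul_of_nonneg_left h2 h3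
        _ ≤ 1 - 3 / 4 * η := by nlinarith
    have h4 : 3 / 4 * η * U ≤ (1 + θ) * SPG + θ * (NL * L) := by
      have h5 : (1 - η) * (1 + θ) ^ 2 * U ≤ (1 - 3 / 4 * η) * U := mul_le_mul_of_nonneg_right hθs hU0.le
      have h6 : (1 + θ) * (SPG + (1 - η) * (1 + θ) * U) = (1 + θ) * SPG + (1 - η) * (1 + θ) ^ 2 * U := by ring
      rw [h6] at h1
      linarith
    have h7 : 3 / 8 * (η * c0) * (NL * L) ≤ 3 / 4 * η * U := by
      have := mul_le_mul_of_nonneg_left hU1 (show 0 ≤ 3 / 4 * η by positivity)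
      calc 3 / 8 * (η * c0) * (NL * L) = 3 / 4 * η * (c0 / 2 * (NL * L)) := by ring
        _ ≤ _ := this
    have h8 : θ * (NL * L) ≤ η * c0 / 16 * (NL * L) := mul_le_mul_of_nonneg_right hθ2 hNLL.le
    have h9 : 5 / 16 * (η * c0) * (NL * L) ≤ (1 + θ) * SPG := by linarith
    have hSP0 : 0 ≤ SPG := by rw [hSPG]; positivity
    have h10 : (1 + θ) * SPG ≤ 5 / 4 * SPG := mul_le_mul_of_nonneg_right (by linarith) hSP0
    have h11 : 1 / 4 * (η * c0) * (NL * L) ≤ C1 * NL * SG + L * (η * c0 / 16 * NL) := by linarith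
    have h12 : 3 / 16 * (η * c0) * (NL * L) ≤ C1 * NL * SG := by
      have e : L * (η * c0 / 16 * NL) = 1 / 16 * (η * c0) * (NL * L) := by ring
      rw [e] at h11
      linarith
    have h13 : 3 / 16 * (η * c0) * L ≤ C1 * SG := by
      have h14 : NL * (3 / 16 * (η * c0) * L) ≤ NL * (C1 * SG) := by
        calc NL * (3 / 16 * (η * c0) * L) = 3 / 16 * (η * c0) * (NL * L) := by ring
          _ ≤ C1 * NL * SG := h12
          _ = NL * (C1 * SG) := by ring
      exact le_of_mul_le_mul_left h14 hNL0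
    rw [hα, div_mul_eq_mul_div, div_le_iff₀ (by positivity)]
    have h15 : 0 < η * c0 * L := by positivity
    nlinarith
  -- Cauchy-Schwarz
  have hcs : SG ^ 2 ≤ #GS * (C2 * L) := by
    have h1 := sum_mul_sq_le_sq_mul_sq GS (fun _ => (1 : ℝ)) (fun l => G l)
    simp only [one_mul, one_pow, sum_const, nsmul_eq_mul, mul_one] at h1
    rw [← hSG] at h1
    refine h1.trans ?_
    apply mul_le_mul_of_nonneg_left _ (Nat.cast_nonneg _)
    refine le_trans ?_ hsqL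
    apply sum_le_sum_of_subset_of_nonneg
    · rw [hGS]; exact filter_subset _ _
    · intro l _ _
      positivity
  have hfin : α ^ 2 / C2 * L ≤ #GS := by
    have h1 : (α * L) ^ 2 ≤ SG ^ 2 := pow_le_pow_left₀ (by positivity) hmain 2
    have h2 : (α ^ 2 * L) * L ≤ (#GS * C2) * L := by
      calc (α ^ 2 * L) * L = (α * L) ^ 2 := by ring
        _ ≤ SG ^ 2 := h1
        _ ≤ #GS * (C2 * L) := hcs
        _ = (#GS * C2) * L := by ring
    have h3 := le_of_mul_le_mul_right h2 hL0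
    rw [div_mul_eq_mul_div, div_le_iff₀ (by linarith)]
    exact h3
  refine hfin.trans ?_
  have hsub : GS ⊆ (Icc 1 L).filter (fun l : ℕ => Good η0 N l) := by
    rw [hGS]
    intro l hl
    rw [mem_filter] at hl ⊢
    exact ⟨hl.1, Good.mono (by omega) hη2 hl.2⟩
  have := card_le_card hsub
  exact_mod_cast this

end Run7.h328.GP
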